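import Pool.Agent.helper78.ED.Defs
import Pool.Agent.helper99.ED.GS
import Pool.Agent.helper23.DM.FM

/-!
Module C2 of project ED: zeros of the second class.
-/

set_option autoImplicit false

open Complex MeasureTheory

namespace Pool.Agent.helper78.ED

open Pool.Agent.helper84.DM

/-- Cauchy-Schwarz with the Gaussian weight. -/
theorem C2_cs {g : ℝ → ℝ} {V : ℝ} (hV : 0 ≤ V) (hg : ContinuousOn g (Set.Icc (-V) V)) :
    (∫ v in (-V)..V, g v * Real.exp (-v ^ 2)) ^ 2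
      ≤ (∫ v in (-V)..V, Real.exp (-v ^ 2)) * ∫ v in (-V)..V, g v ^ 2 * Real.exp (-v ^ 2) := by
  have hle : -V ≤ V := by linarith
  have hu : Set.uIcc (-V) V = Set.Icc (-V) V := Set.uIcc_of_le hle
  have hgc : ContinuousOn g (Set.uIcc (-V) V) := by rw [hu]; exact hg
  have hec : ContinuousOn (fun v : ℝ => Real.exp (-v ^ 2)) (Set.uIcc (-V) V) := by fun_prop
  have hi0 : IntervalIntegrable (fun v : ℝ => Real.exp (-v ^ 2)) volume (-V) V :=
    hec.intervalIntegrable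
  have hi1 : IntervalIntegrable (fun v : ℝ => g v * Real.exp (-v ^ 2)) volume (-V) V :=
    (hgc.mul hec).intervalIntegrable
  have hi2 : IntervalIntegrable (fun v : ℝ => g v ^ 2 * Real.exp (-v ^ 2)) volume (-V) V :=
    ((hgc.pow 2).mul hec).intervalIntegrable
  set A : ℝ := ∫ v in (-V)..V, Real.exp (-v ^ 2) with hA
  set B : ℝ := ∫ v in (-V)..V, g v * Real.exp (-v ^ 2) with hB
  set D : ℝ := ∫ v in (-V)..V, g v ^ 2 * Real.exp (-v ^ 2) with hD
  have key : ∀ l : ℝ, 0 ≤ D - 2 * l * B + l ^ 2 * A := by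
    intro l
    have h1 : ∫ v in (-V)..V, (g v - l) ^ 2 * Real.exp (-v ^ 2) = D - 2 * l * B + l ^ 2 * A := by
      rw [hD, hB, hA, ← intervalIntegral.integral_const_mul, ← intervalIntegral.integral_const_mul,
        ← intervalIntegral.integral_sub hi2 (hi1.const_mul _),
        ← intervalIntegral.integral_add (hi2.sub (hi1.const_mul _)) (hi0.const_mul _)]
      refine intervalIntegral.integral_congr (fun v _ => ?_)
      ring
    rw [← h1]
    exact intervalIntegral.integral_nonneg hle fun v _ => by positivity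
  have hA0 : 0 ≤ A := intervalIntegral.integral_nonneg hle fun v _ => (Real.exp_pos _).le
  have hD0 : 0 ≤ D := intervalIntegral.integral_nonneg hle fun v _ => by positivity
  rcases eq_or_lt_of_le hA0 with h0 | h0
  · have hB0 : B = 0 := by
      by_contra hne
      have h2 := key ((D + 1) / (2 * B))
      rw [← h0, mul_zero, add_zero] at h2
      have h3 : 2 * ((D + 1) / (2 * B)) * B = D + 1 := by field_simp
      rw [h3] at h2
      linarith
    rw [hB0, ← h0]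
    simp
  · have h2 := key (B / A)
    have h3 : D - 2 * (B / A) * B + (B / A) ^ 2 * A = D - B ^ 2 / A := by
      field_simp
      ring
    rw [h3] at h2
    have h4 : B ^ 2 / A ≤ D := by linarith
    rw [div_le_iff₀ h0] at h4
    linarith [mul_comm A D]

theorem C2_gauss {V : ℝ} (hV : 0 ≤ V) : ∫ v in (-V)..V, Real.exp (-v ^ 2) ≤ 2 := by
  have hle : -V ≤ V := by linarith
  have hint : Integrable (fun v : ℝ => Real.exp (-v ^ 2)) := by
    have := integrable_exp_neg_mul_sq (b := 1) one_pos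
    simpa using this
  have h1 : ∫ v in (-V)..V, Real.exp (-v ^ 2) ≤ ∫ v : ℝ, Real.exp (-v ^ 2) := by
    rw [intervalIntegral.integral_of_le hle]
    exact setIntegral_le_integral hint (Filter.Eventually.of_forall fun v => (Real.exp_pos _).le)
  have h2 : ∫ v : ℝ, Real.exp (-v ^ 2) = Real.sqrt Real.pi := by
    have := integral_gaussian 1
    simpa using this
  have h3 : Real.sqrt Real.pi ≤ 2 := by
    rw [Real.sqrt_le_left (by norm_num)]
    linarith [Real.pi_lt_d2]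
  linarith

theorem C2_holder {g : ℝ → ℝ} {V : ℝ} (hV : 0 ≤ V) (hg : ContinuousOn g (Set.Icc (-V) V)) :
    (∫ v in (-V)..V, g v * Real.exp (-v ^ 2)) ^ 4
      ≤ 8 * ∫ v in (-V)..V, g v ^ 4 * Real.exp (-v ^ 2) := by
  have hle : -V ≤ V := by linarith
  have h1 := C2_cs hV hg
  have h2 := C2_cs (g := fun v => g v ^ 2) hV (hg.pow 2)
  have e4 : (fun v : ℝ => (g v ^ 2) ^ 2 * Real.exp (-v ^ 2))
      = fun v : ℝ => g v ^ 4 * Real.exp (-v ^ 2) := by
    funext v
    ring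
  beta_reduce at h2
  rw [e4] at h2
  have hA := C2_gauss hV
  have hA0 : 0 ≤ ∫ v in (-V)..V, Real.exp (-v ^ 2) :=
    intervalIntegral.integral_nonneg hle fun v _ => (Real.exp_pos _).le
  have hD0 : 0 ≤ ∫ v in (-V)..V, g v ^ 2 * Real.exp (-v ^ 2) :=
    intervalIntegral.integral_nonneg hle fun v _ => by positivity
  have hE0 : 0 ≤ ∫ v in (-V)..V, g v ^ 4 * Real.exp (-v ^ 2) :=
    intervalIntegral.integral_nonneg hle fun v _ => by positivity
  set A : ℝ := ∫ v in (-V)..V, Real.exp (-v ^ 2)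
  set B : ℝ := ∫ v in (-V)..V, g v * Real.exp (-v ^ 2)
  set D : ℝ := ∫ v in (-V)..V, g v ^ 2 * Real.exp (-v ^ 2)
  set E : ℝ := ∫ v in (-V)..V, g v ^ 4 * Real.exp (-v ^ 2)
  calc B ^ 4 = (B ^ 2) ^ 2 := by ring
    _ ≤ (A * D) ^ 2 := pow_le_pow_left₀ (sq_nonneg _) h1 2
    _ = A ^ 2 * D ^ 2 := by ring
    _ ≤ A ^ 2 * (A * E) := mul_le_mul_of_nonneg_left h2 (sq_nonneg _)
    _ = A ^ 3 * E := by ring
    _ ≤ 2 ^ 3 * E := mul_le_mul_of_nonneg_right (pow_le_pow_left₀ hA0 hA 3) hE0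
    _ = 8 * E := by norm_num

theorem class_two_of
    (hLC : ∃ C : ℝ, 0 < C ∧ ∀ T : ℝ, 2 ≤ T → ∀ Z : Finset ℂ,
      (∀ ρ ∈ Z, riemannZeta ρ = 0 ∧ 1 / 2 ≤ ρ.re) → ∀ t : ℝ, 1 ≤ t → t ≤ 3 * T →
      (loc Z t : ℝ) ≤ C * Real.log T)
    (η ε : ℝ) (hη : 0 < η) (hη1 : η ≤ 1 / 8) (hε : 0 < ε) : ∃ C T₀ : ℝ, 0 < C ∧
    ∀ T : ℝ, T₀ ≤ T → ∀ Z : Finset ℂ, Zer (1 / 2) T Z →
      ∑ ρ ∈ Z, Zt η (T / 2) ρ.im ^ 4 ≤ C * T ^ (1 + ε) := by
  obtain ⟨C₁, hC₁, hloc⟩ := hLC
  obtain ⟨C₂, hC₂, hfm⟩ := fourth_moment η (ε / 2) hη (by linarith) (by linarith)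
  set c : ℝ := 2 + 2 ^ (1 + ε / 2) with hc
  have hc0 : 0 < c := by positivity
  refine ⟨64 * (C₁ * (2 / ε)) * (C₂ * c), 4, by positivity, ?_⟩
  intro T hT Z hZ
  have hT0 : 0 < T := by linarith
  set f : ℝ → ℝ := fun u => ‖riemannZeta (((1 / 2 + η : ℝ) : ℂ) + (u : ℝ) * I)‖ ^ 4 with hf
  have hcont0 : ∀ A B : ℝ, 0 < A → ContinuousOn
      (fun t : ℝ => riemannZeta (((1 / 2 + η : ℝ) : ℂ) + (t : ℝ) * I)) (Set.Icc A B) :=
    fun A B hA => FM_cont hA
  have hcont : ∀ A B : ℝ, 0 < A → ContinuousOn f (Set.Icc A B) :=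
    fun A B hA => ((hcont0 A B hA).norm).pow 4
  have hf0 : ∀ u, 0 ≤ f u := fun u => by positivity
  have hV : (0 : ℝ) ≤ T / 2 := by linarith
  -- Hoelder
  have h1 : ∀ ρ ∈ Z, Zt η (T / 2) ρ.im ^ 4
      ≤ 8 * ∫ v in (-(T / 2))..(T / 2), f (ρ.im + v) * Real.exp (-v ^ 2) := by
    intro ρ hρ
    obtain ⟨-, -, hρ1, hρ2⟩ := hZ ρ hρ
    have hg : ContinuousOn (fun v : ℝ =>
        ‖riemannZeta (((1 / 2 + η : ℝ) : ℂ) + ((ρ.im + v : ℝ) : ℂ) * I)‖)
        (Set.Icc (-(T / 2)) (T / 2)) := by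
      have h2 := (hcont0 (T / 2) (5 * T / 2) (by linarith)).norm
      refine ContinuousOn.comp (f := fun v : ℝ => ρ.im + v) h2 (by fun_prop) ?_
      intro v hv
      obtain ⟨hv1, hv2⟩ := hv
      exact ⟨by linarith, by linarith⟩
    have h3 := C2_holder hV hg
    exact h3
  have h2 : ∑ ρ ∈ Z, Zt η (T / 2) ρ.im ^ 4
      ≤ 8 * ∑ ρ ∈ Z, ∫ v in (-(T / 2))..(T / 2), f (ρ.im + v) * Real.exp (-v ^ 2) := by
    rw [Finset.mul_sum]
    exact Finset.sum_le_sum h1
  have hlog : 0 ≤ Real.log T := Real.log_nonneg (by linarith)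
  have h3 := gauss_sum (f := f) (a := T) (b := 2 * T) (V := T / 2) (K := C₁ * Real.log T)
    (by linarith) hV (hcont _ _ (by linarith)) hf0 Z (fun ρ hρ => (hZ ρ hρ).2.2)
    (fun t ht1 ht2 => hloc T (by linarith) Z (fun ρ hρ => ⟨(hZ ρ hρ).1, (hZ ρ hρ).2.1⟩) t
      (by linarith) (by linarith))
  -- the integral
  have hint : ∀ A B : ℝ, 0 < A → A ≤ B → IntervalIntegrable f volume A B := by
    intro A B hA hAB
    refine ContinuousOn.intervalIntegrable ?_
    rw [Set.uIcc_of_le hAB]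
    exact hcont A B hA
  have e1 : T - T / 2 = T / 2 := by ring
  have h4 : ∫ u in (T - T / 2)..(2 * T + T / 2), f u
      ≤ C₂ * c * T ^ (1 + ε / 2) := by
    rw [e1]
    have hsplit : ∫ u in (T / 2)..(2 * (2 * T)), f u
        = (∫ u in (T / 2)..T, f u) + (∫ u in T..(2 * T), f u) + ∫ u in (2 * T)..(2 * (2 * T)), f u := by
      rw [intervalIntegral.integral_add_adjacent_intervals (hint _ _ (by linarith) (by linarith))
        (hint _ _ (by linarith) (by linarith)),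
        intervalIntegral.integral_add_adjacent_intervals (hint _ _ (by linarith) (by linarith))
        (hint _ _ (by linarith) (by linarith))]
    have hmono : ∫ u in (T / 2)..(2 * T + T / 2), f u ≤ ∫ u in (T / 2)..(2 * (2 * T)), f u := by
      refine intervalIntegral.integral_mono_interval le_rfl (by linarith) (by linarith)
        (Filter.Eventually.of_forall hf0) (hint _ _ (by linarith) (by linarith))
    have m1 : ∫ u in (T / 2)..T, f u ≤ C₂ * (T / 2) ^ (1 + ε / 2) := by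
      have h := hfm (T / 2) (1 / 2 + η) (by linarith) le_rfl
      have e2 : 2 * (T / 2) = T := by ring
      rw [e2] at h
      exact h
    have m2 : ∫ u in T..(2 * T), f u ≤ C₂ * T ^ (1 + ε / 2) := hfm T (1 / 2 + η) (by linarith) le_rfl
    have m3 : ∫ u in (2 * T)..(2 * (2 * T)), f u ≤ C₂ * (2 * T) ^ (1 + ε / 2) :=
      hfm (2 * T) (1 / 2 + η) (by linarith) le_rfl
    have n1 : (T / 2) ^ (1 + ε / 2) ≤ T ^ (1 + ε / 2) :=
      Real.rpow_le_rpow (by linarith) (by linarith) (by linarith)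
    have n3 : (2 * T) ^ (1 + ε / 2) = 2 ^ (1 + ε / 2) * T ^ (1 + ε / 2) :=
      Real.mul_rpow (by norm_num) hT0.le
    have n4 : C₂ * (T / 2) ^ (1 + ε / 2) ≤ C₂ * T ^ (1 + ε / 2) :=
      mul_le_mul_of_nonneg_left n1 hC₂.le
    rw [hc]
    rw [n3] at m3
    nlinarith [hmono, hsplit, m1, m2, m3, n4]
  have h5 : Real.log T ≤ T ^ (ε / 2) / (ε / 2) := Real.log_le_rpow_div hT0.le (by linarith)
  have h6 : C₁ * Real.log T ≤ C₁ * (2 / ε) * T ^ (ε / 2) := by
    have e3 : T ^ (ε / 2) / (ε / 2) = 2 / ε * T ^ (ε / 2) := by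
      field_simp
    rw [e3] at h5
    calc C₁ * Real.log T ≤ C₁ * (2 / ε * T ^ (ε / 2)) := mul_le_mul_of_nonneg_left h5 hC₁.le
      _ = C₁ * (2 / ε) * T ^ (ε / 2) := by ring
  have hI0 : 0 ≤ ∫ u in (T - T / 2)..(2 * T + T / 2), f u :=
    intervalIntegral.integral_nonneg (by linarith) fun u _ => hf0 u
  calc ∑ ρ ∈ Z, Zt η (T / 2) ρ.im ^ 4
      ≤ 8 * (8 * (C₁ * Real.log T) * ∫ u in (T - T / 2)..(2 * T + T / 2), f u) :=
        h2.trans (mul_le_mul_of_nonneg_left h3 (by norm_num))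
    _ ≤ 8 * (8 * (C₁ * (2 / ε) * T ^ (ε / 2)) * (C₂ * c * T ^ (1 + ε / 2))) := by
        refine mul_le_mul_of_nonneg_left ?_ (by norm_num)
        exact mul_le_mul (mul_le_mul_of_nonneg_left h6 (by norm_num)) h4 hI0 (by positivity)
    _ = 64 * (C₁ * (2 / ε)) * (C₂ * c) * (T ^ (ε / 2) * T ^ (1 + ε / 2)) := by ring
    _ = 64 * (C₁ * (2 / ε)) * (C₂ * c) * T ^ (1 + ε) := by
        rw [← Real.rpow_add hT0]
        congr 2
        ring

end Pool.Agent.helper78.ED
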