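import Pool.Agent.helper71.ED.CR

/-!
Module R6 of project ED: dyadic form, second version.
-/

set_option autoImplicit false

open Complex MeasureTheory

namespace Pool.Agent.helper78.ED

open Pool.Agent.helper84.DM

theorem core6_of
    (hDT : ∀ (δ κ η : ℝ), 0 < δ → δ ≤ 1 / 4 → 0 < κ → 0 < η → η ≤ 1 / 8 →
      ∃ (c : ℝ → ℕ → ℂ) (C T₀ : ℝ), 0 < C ∧ ∀ T : ℝ, T₀ ≤ T →
      (∀ n : ℕ, 1 ≤ n → (n : ℝ) ≤ T → ‖c T n‖ ≤ C * T ^ κ) ∧
      ∀ ρ : ℂ, riemannZeta ρ = 0 → 1 / 2 + 2 * η ≤ ρ.re → T ≤ ρ.im → ρ.im ≤ 2 * T →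
        1 / 4 ≤ ‖∑ n ∈ Finset.Ioc ⌊T ^ δ⌋₊ ⌊T ^ (1 / 2 + δ)⌋₊, c T n * (n : ℂ) ^ (-ρ)‖ +
          C * T ^ δ * Real.sqrt T ^ (1 / 2 + η - ρ.re) * Zt η (T / 2) ρ.im)
    (hC2 : ∀ (η ε : ℝ), 0 < η → η ≤ 1 / 8 → 0 < ε → ∃ C T₀ : ℝ, 0 < C ∧
      ∀ T : ℝ, T₀ ≤ T → ∀ Z : Finset ℂ, Zer (1 / 2) T Z →
      ∑ ρ ∈ Z, Zt η (T / 2) ρ.im ^ 4 ≤ C * T ^ (1 + ε))
    (hC6 : ∀ (ε δ : ℝ), 0 < ε → 0 < δ → δ ≤ 1 / 4 → ∃ κ : ℝ, 0 < κ ∧
      ∀ C₁ : ℝ, 0 < C₁ → ∃ C T₀ : ℝ, 0 < C ∧ ∀ T : ℝ, T₀ ≤ T → ∀ σ : ℝ, 3 / 4 ≤ σ → σ ≤ 1 →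
      ∀ X : ℝ, T ^ (1 + 2 * δ) ≤ X → X ≤ T ^ (6 : ℕ) →
      ∀ c : ℕ → ℂ, (∀ n : ℕ, 1 ≤ n → (n : ℝ) ≤ T → ‖c n‖ ≤ C₁ * T ^ κ) →
      ∀ N : ℕ, T ^ δ / 2 ≤ (N : ℝ) → (N : ℝ) ≤ T ^ (1 / 2 + δ) →
      ∀ Z : Finset ℂ, Zer σ T Z →
        (∀ ρ ∈ Z, 1 / (C₁ * Real.log T) ≤
          ‖∑ n ∈ Finset.Ioc N (2 * N), c n * (n : ℂ) ^ (-ρ)‖) →
        (Z.card : ℝ) ^ 4 ≤ C * T ^ ε *
          (X ^ (8 * (1 - σ)) + X ^ (6 - 8 * σ) * (T * (energy Z : ℝ))))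
    (hEM : ∀ Z' Z : Finset ℂ, Z' ⊆ Z → energy Z' ≤ energy Z)
    (ε : ℝ) (hε : 0 < ε) : ∃ C T₀ : ℝ, 0 < C ∧ ∀ T : ℝ, T₀ ≤ T → ∀ σ : ℝ,
    3 / 4 ≤ σ → σ ≤ 1 → ∀ X : ℝ, T ^ (1 + ε) ≤ X → X ≤ T ^ (6 : ℕ) → ∀ Z : Finset ℂ, Zer σ T Z →
      (Z.card : ℝ) ^ 4 ≤ C * T ^ ε *
        (X ^ (8 * (1 - σ)) + X ^ (6 - 8 * σ) * (T * (energy Z : ℝ))) := by
  classical
  set η : ℝ := min (1 / 8) (ε / 64) with hηd
  set δ : ℝ := min (1 / 4) (ε / 64) with hδd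
  have hη : 0 < η := lt_min (by norm_num) (by linarith)
  have hη1 : η ≤ 1 / 8 := min_le_left _ _
  have hη2 : η ≤ ε / 64 := min_le_right _ _
  have hδ : 0 < δ := lt_min (by norm_num) (by linarith)
  have hδ1 : δ ≤ 1 / 4 := min_le_left _ _
  have hδ2 : δ ≤ ε / 64 := min_le_right _ _
  obtain ⟨κ, hκ, hC6'⟩ := hC6 (ε / 2) δ (by linarith) hδ hδ1
  obtain ⟨c, C₀, T₁, hC₀, hdet⟩ := hDT δ κ η hδ hδ1 hκ hη hη1
  obtain ⟨C₂, T₂, hC₂, htwo⟩ := hC2 η (ε / 16) hη hη1 (by linarith)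
  set C₁ : ℝ := max C₀ 24 with hC₁d
  have hC₁ : 0 < C₁ := lt_of_lt_of_le (by norm_num) (le_max_right _ _)
  obtain ⟨C₃, T₃, hC₃, hone⟩ := hC6' C₁ hC₁
  have hT4 : ∃ T₄ : ℝ, ∀ T : ℝ, T₄ ≤ T → 2 ≤ T ^ δ := by
    have := (tendsto_rpow_atTop hδ).eventually_ge_atTop 2
    rw [Filter.eventually_atTop] at this
    exact this
  obtain ⟨T₄, hT₄⟩ := hT4
  -- log T <= (8/ε) T^(ε/8)
  set L : ℝ := 3 * (8 / ε) with hL
  have hL0 : 0 < L := by positivity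
  refine ⟨8 * (L ^ 4 * C₃ + ((8 * C₀) ^ 4 * C₂) ^ 4), max (max (max T₁ T₂) (max T₃ T₄)) 3,
    by positivity, ?_⟩
  intro T hT σ hσ hσ1 X hTX' hX6 Z hZ
  have hT1 : T₁ ≤ T := le_trans (le_trans (le_max_left _ _) (le_max_left _ _))
    ((le_max_left _ _).trans hT)
  have hT2 : T₂ ≤ T := le_trans (le_trans (le_max_right _ _) (le_max_left _ _))
    ((le_max_left _ _).trans hT)
  have hT3 : T₃ ≤ T := le_trans (le_trans (le_max_left _ _) (le_max_right _ _))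
    ((le_max_left _ _).trans hT)
  have hT4' : T₄ ≤ T := le_trans (le_trans (le_max_right _ _) (le_max_right _ _))
    ((le_max_left _ _).trans hT)
  have h3T : 3 ≤ T := (le_max_right _ _).trans hT
  have hT0 : 0 < T := by linarith
  have hTone : 1 ≤ T := by linarith
  have hTX : T ≤ X := by
    refine le_trans ?_ hTX'
    calc T = T ^ (1 : ℝ) := (Real.rpow_one T).symm
      _ ≤ T ^ (1 + ε) := Real.rpow_le_rpow_of_exponent_le hTone (by linarith)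
  have hTX2 : T ^ (1 + 2 * δ) ≤ X := by
    refine le_trans ?_ hTX'
    exact Real.rpow_le_rpow_of_exponent_le hTone (by linarith)
  have hX0 : 0 < X := by linarith
  have hTd := hT₄ T hT4'
  have hlog1 : 1 ≤ Real.log T := by
    rw [Real.le_log_iff_exp_le hT0]
    linarith [Real.exp_one_lt_d9]
  obtain ⟨hcb, hdetT⟩ := hdet T hT1
  set N0 : ℕ := ⌊T ^ δ⌋₊ with hN0
  set Ne : ℕ := ⌊T ^ (1 / 2 + δ)⌋₊ with hNe
  have hN0low : T ^ δ / 2 ≤ (N0 : ℝ) := by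
    have := Nat.lt_floor_add_one (T ^ δ)
    rw [← hN0] at this
    linarith
  have hN0pos : 1 ≤ N0 := by
    have h : (0 : ℝ) < (N0 : ℝ) := by linarith
    exact_mod_cast h
  set J : ℕ := ⌊2 * Real.log T⌋₊ + 1 with hJ
  have hJlow : 2 * Real.log T ≤ (J : ℝ) := by
    have := Nat.lt_floor_add_one (2 * Real.log T)
    rw [hJ]
    push_cast
    linarith
  have hJup : (J : ℝ) ≤ 3 * Real.log T := by
    have := Nat.floor_le (show 0 ≤ 2 * Real.log T by linarith)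
    rw [hJ]
    push_cast
    linarith
  have hJpos : (0 : ℝ) < (J : ℝ) := by linarith
  have h2J : T ≤ (2 : ℝ) ^ J := by
    have h1 : (2 : ℝ) ^ J = Real.exp (Real.log 2 * J) := by
      rw [← Real.rpow_natCast, Real.rpow_def_of_pos (by norm_num)]
    rw [h1]
    have h2 : Real.log T ≤ Real.log 2 * J := by
      have h3 : (1 : ℝ) / 2 ≤ Real.log 2 := by linarith [Real.log_two_gt_d9]
      nlinarith
    calc T = Real.exp (Real.log T) := (Real.exp_log hT0).symm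
      _ ≤ _ := Real.exp_le_exp.mpr h2
  have hTp : T ^ (1 / 2 + δ) ≤ T := by
    calc T ^ (1 / 2 + δ) ≤ T ^ (1 : ℝ) :=
          Real.rpow_le_rpow_of_exponent_le hTone (by linarith)
      _ = T := Real.rpow_one T
  have hNeM : Ne ≤ 2 ^ J * N0 := by
    have h1 : (Ne : ℝ) ≤ T ^ (1 / 2 + δ) := Nat.floor_le (by positivity)
    have h2 : (Ne : ℝ) ≤ ((2 ^ J : ℕ) : ℝ) := by
      push_cast
      linarith
    have h3 : Ne ≤ 2 ^ J := by exact_mod_cast h2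
    exact h3.trans (Nat.le_mul_of_pos_right _ hN0pos)
  have hNeT : (Ne : ℝ) ≤ T ^ (1 / 2 + δ) := Nat.floor_le (by positivity)
  set c' : ℕ → ℂ := fun n => if n ≤ Ne then c T n else 0 with hc'
  have hc'b : ∀ n : ℕ, 1 ≤ n → (n : ℝ) ≤ T → ‖c' n‖ ≤ C₁ * T ^ κ := by
    intro n hn hnT
    have hp : 0 ≤ T ^ κ := by positivity
    by_cases h : n ≤ Ne
    · simp only [hc', if_pos h]
      exact (hcb n hn hnT).trans (mul_le_mul_of_nonneg_right (le_max_left _ _) hp)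
    · simp only [hc', if_neg h, norm_zero]
      positivity
  have hsplit : ∀ ρ : ℂ, ∑ n ∈ Finset.Ioc N0 Ne, c T n * (n : ℂ) ^ (-ρ)
      = ∑ j ∈ Finset.range J, ∑ n ∈ Finset.Ioc (2 ^ j * N0) (2 * (2 ^ j * N0)),
        c' n * (n : ℂ) ^ (-ρ) := by
    intro ρ
    rw [← CR_dyadic, CR_cut _ N0 Ne _ hNeM]
    refine Finset.sum_congr rfl fun n _ => ?_
    by_cases h : n ≤ Ne
    · simp [hc', h]
    · simp [hc', h]
  -- the two classes
  set small : ℂ → Prop := fun ρ =>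
    1 / 8 ≤ C₀ * T ^ δ * Real.sqrt T ^ (1 / 2 + η - ρ.re) * Zt η (T / 2) ρ.im with hsmall
  set Z2 : Finset ℂ := Z.filter small with hZ2
  set Z1 : Finset ℂ := Z.filter (fun ρ => ¬ small ρ) with hZ1
  set W : ℕ → Finset ℂ := fun j => Z1.filter (fun ρ => 1 / (C₁ * Real.log T) ≤
    ‖∑ n ∈ Finset.Ioc (2 ^ j * N0) (2 * (2 ^ j * N0)), c' n * (n : ℂ) ^ (-ρ)‖) with hW
  have hcard : (Z.card : ℝ) = Z2.card + Z1.card := by
    rw [hZ2, hZ1]
    exact_mod_cast (Finset.card_filter_add_card_filter_not (s := Z) small).symm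
  have hZ1sub : Z1 ⊆ (Finset.range J).biUnion W := by
    intro ρ hρ
    obtain ⟨hρZ, hns⟩ := Finset.mem_filter.mp hρ
    obtain ⟨hz, hre, him1, him2⟩ := hZ ρ hρZ
    have hd := hdetT ρ hz (by linarith) him1 him2
    have hns' : C₀ * T ^ δ * Real.sqrt T ^ (1 / 2 + η - ρ.re) * Zt η (T / 2) ρ.im < 1 / 8 :=
      not_le.mp hns
    have hmid : 1 / 8 ≤ ‖∑ n ∈ Finset.Ioc N0 Ne, c T n * (n : ℂ) ^ (-ρ)‖ := by linarith
    rw [hsplit] at hmid
    by_contra hcon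
    rw [Finset.mem_biUnion] at hcon
    push Not at hcon
    have hall : ∀ j ∈ Finset.range J,
        ‖∑ n ∈ Finset.Ioc (2 ^ j * N0) (2 * (2 ^ j * N0)), c' n * (n : ℂ) ^ (-ρ)‖
          < 1 / (C₁ * Real.log T) := by
      intro j hj
      by_contra hge
      exact hcon j hj (Finset.mem_filter.mpr ⟨hρ, not_lt.mp hge⟩)
    have hJne : (Finset.range J).Nonempty := by
      rw [Finset.nonempty_range_iff]
      omega
    have h1 : ‖∑ j ∈ Finset.range J, ∑ n ∈ Finset.Ioc (2 ^ j * N0) (2 * (2 ^ j * N0)),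
        c' n * (n : ℂ) ^ (-ρ)‖ < ∑ j ∈ Finset.range J, 1 / (C₁ * Real.log T) :=
      lt_of_le_of_lt (norm_sum_le _ _) (Finset.sum_lt_sum_of_nonempty hJne hall)
    rw [Finset.sum_const, Finset.card_range, nsmul_eq_mul] at h1
    have h24 : (24 : ℝ) ≤ C₁ := le_max_right _ _
    have h2 : (J : ℝ) * (1 / (C₁ * Real.log T)) ≤ 1 / 8 := by
      rw [mul_one_div, div_le_iff₀ (by positivity)]
      nlinarith
    linarith
  have hE0 : (0 : ℝ) ≤ T * (energy Z : ℝ) := by positivity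
  set R : ℝ := X ^ (8 * (1 - σ)) + X ^ (6 - 8 * σ) * (T * (energy Z : ℝ)) with hR
  have hR0 : 0 ≤ R := by positivity
  have hWb : ∀ j ∈ Finset.range J, ((W j).card : ℝ) ^ 4 ≤ C₃ * T ^ (ε / 2) * R := by
    intro j hj
    have hsubZ : W j ⊆ Z := (Finset.filter_subset _ _).trans (Finset.filter_subset _ _)
    by_cases hjN : ((2 ^ j * N0 : ℕ) : ℝ) ≤ T ^ (1 / 2 + δ)
    · have hlow : T ^ δ / 2 ≤ ((2 ^ j * N0 : ℕ) : ℝ) := by
        refine hN0low.trans ?_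
        exact_mod_cast Nat.le_mul_of_pos_left N0 (by positivity)
      have h1 := hone T hT3 σ hσ hσ1 X hTX2 hX6 c' hc'b (2 ^ j * N0) hlow hjN (W j)
        (fun ρ hρ => hZ ρ (hsubZ hρ)) (fun ρ hρ => (Finset.mem_filter.mp hρ).2)
      refine h1.trans (mul_le_mul_of_nonneg_left ?_ (by positivity))
      rw [hR]
      have h3 : (energy (W j) : ℝ) ≤ (energy Z : ℝ) := by exact_mod_cast hEM _ _ hsubZ
      have h4 : X ^ (6 - 8 * σ) * (T * (energy (W j) : ℝ))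
          ≤ X ^ (6 - 8 * σ) * (T * (energy Z : ℝ)) :=
        mul_le_mul_of_nonneg_left (mul_le_mul_of_nonneg_left h3 hT0.le) (by positivity)
      linarith
    · have hempty : W j = ∅ := by
        rw [Finset.eq_empty_iff_forall_notMem]
        intro ρ hρ
        have h1 := (Finset.mem_filter.mp hρ).2
        have h2 : ∑ n ∈ Finset.Ioc (2 ^ j * N0) (2 * (2 ^ j * N0)), c' n * (n : ℂ) ^ (-ρ) = 0 := by
          refine Finset.sum_eq_zero fun n hn => ?_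
          have hn1 : 2 ^ j * N0 < n := (Finset.mem_Ioc.mp hn).1
          have hn2 : ¬ n ≤ Ne := by
            intro hle
            apply hjN
            have h5 : ((2 ^ j * N0 : ℕ) : ℝ) ≤ (Ne : ℝ) := by exact_mod_cast (hn1.le.trans hle)
            exact h5.trans hNeT
          simp [hc', hn2]
        rw [h2, norm_zero] at h1
        have h3 : 0 < 1 / (C₁ * Real.log T) := by positivity
        linarith
      rw [hempty, Finset.card_empty, Nat.cast_zero, zero_pow (by norm_num)]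
      positivity
  -- the first class
  have hZ1b : (Z1.card : ℝ) ^ 4 ≤ L ^ 4 * C₃ * T ^ ε * R := by
    set m : ℝ := (C₃ * T ^ (ε / 2) * R) ^ (1 / 4 : ℝ) with hm
    have hb0 : 0 ≤ C₃ * T ^ (ε / 2) * R := by positivity
    have hm0 : 0 ≤ m := by positivity
    have hm4 : m ^ 4 = C₃ * T ^ (ε / 2) * R := by
      rw [hm, ← Real.rpow_natCast, ← Real.rpow_mul hb0]
      norm_num
    have hWm : ∀ j ∈ Finset.range J, ((W j).card : ℝ) ≤ m := by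
      intro j hj
      have h1 := hWb j hj
      rw [← hm4] at h1
      exact le_of_pow_le_pow_left₀ (by norm_num) hm0 h1
    have h1 : (Z1.card : ℝ) ≤ J * m := by
      have h2 : Z1.card ≤ ∑ j ∈ Finset.range J, (W j).card :=
        (Finset.card_le_card hZ1sub).trans Finset.card_biUnion_le
      calc (Z1.card : ℝ) ≤ ((∑ j ∈ Finset.range J, (W j).card : ℕ) : ℝ) := by exact_mod_cast h2
        _ = ∑ j ∈ Finset.range J, ((W j).card : ℝ) := by push_cast; rfl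
        _ ≤ ∑ j ∈ Finset.range J, m := Finset.sum_le_sum hWm
        _ = J * m := by rw [Finset.sum_const, Finset.card_range, nsmul_eq_mul]
    have hJL : (J : ℝ) ≤ L * T ^ (ε / 8) := by
      have h3 : Real.log T ≤ T ^ (ε / 8) / (ε / 8) := Real.log_le_rpow_div hT0.le (by linarith)
      have e3 : T ^ (ε / 8) / (ε / 8) = 8 / ε * T ^ (ε / 8) := by field_simp
      rw [e3] at h3
      rw [hL]
      linarith
    calc (Z1.card : ℝ) ^ 4 ≤ (J * m) ^ 4 := pow_le_pow_left₀ (Nat.cast_nonneg _) h1 4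
      _ = (J : ℝ) ^ 4 * m ^ 4 := by ring
      _ ≤ (L * T ^ (ε / 8)) ^ 4 * m ^ 4 :=
          mul_le_mul_of_nonneg_right (pow_le_pow_left₀ hJpos.le hJL 4) (by positivity)
      _ = L ^ 4 * C₃ * T ^ ε * R := by
          rw [hm4, mul_pow, ← Real.rpow_natCast (T ^ (ε / 8)) 4, ← Real.rpow_mul hT0.le]
          have e5 : T ^ ε = T ^ (ε / 8 * ((4 : ℕ) : ℝ)) * T ^ (ε / 2) := by
            rw [← Real.rpow_add hT0]
            congr 1
            push_cast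
            ring
          rw [e5]
          ring
  -- the second class
  have hZ2b : (Z2.card : ℝ) ^ 4 ≤ ((8 * C₀) ^ 4 * C₂) ^ 4 * T ^ ε * R := by
    have hzer : Zer (1 / 2) T Z2 := by
      intro ρ hρ
      obtain ⟨hz, hre, him1, him2⟩ := hZ ρ (Finset.filter_subset _ _ hρ)
      exact ⟨hz, by linarith, him1, him2⟩
    have h1 := CR_two C₀ C₂ δ η (ε / 16) T σ X hC₀ hC₂ hTone hσ1 hTX Z2
      (fun ρ hρ => (hZ ρ (Finset.filter_subset _ _ hρ)).2.1)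
      (fun ρ hρ => (Finset.mem_filter.mp hρ).2) (htwo T hT2 Z2 hzer)
    refine h1.trans ?_
    have h2 : T ^ (4 * (ε / 16) + 16 * δ + 8 * η) ≤ T ^ ε :=
      Real.rpow_le_rpow_of_exponent_le hTone (by linarith)
    have h3 : X ^ (8 * (1 - σ)) ≤ R := by
      rw [hR]
      have : 0 ≤ X ^ (6 - 8 * σ) * (T * (energy Z : ℝ)) := by positivity
      linarith
    exact mul_le_mul (mul_le_mul_of_nonneg_left h2 (by positivity)) h3 (by positivity)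
      (by positivity)
  calc (Z.card : ℝ) ^ 4 = ((Z2.card : ℝ) + Z1.card) ^ 4 := by rw [hcard]
    _ ≤ 8 * ((Z2.card : ℝ) ^ 4 + (Z1.card : ℝ) ^ 4) :=
        CR_pow4 _ _
    _ ≤ 8 * (((8 * C₀) ^ 4 * C₂) ^ 4 * T ^ ε * R + L ^ 4 * C₃ * T ^ ε * R) := by linarith
    _ = 8 * (L ^ 4 * C₃ + ((8 * C₀) ^ 4 * C₂) ^ 4) * T ^ ε * R := by ring

end Pool.Agent.helper78.ED
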